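import Mathlib
import Pool.Agent.H321R2.OSI.Lower
import Pool.Agent.H321R2.OSI.LowCoh
import Pool.Agent.H321R2.OSI.Min

/-!
# Q1: with constant failure probability the relative-error bound is false

For every `δ ∈ (0, 1]` there are a square matrix `A` and a random test matrix `S` which is an
oblivious subspace injection with dimension `1`, injectivity `1` (hence any `1 - ε`, `ε ≥ 0`) and
failure probability `δ` such that, on EVERY outcome, the randomized SVD error exceeds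
`(1 + δ ^ 3 / 648) ‖A - A_1‖_F`.  Taking `δ = 0.01`, for every constant `C` the bound
`‖A - Ã‖_F ≤ (1 + C ε) ‖A - A_r‖_F` fails with probability one for all small `ε > 0`.
-/

namespace Pool.Agent.Results.MP_082b65_an.ConstantFailure

open MeasureTheory Matrix Finset Pool.Agent.H321R2.OSI

/-- The bound asked for in Q1, for a given `ε`, failure probability `δ`, constant `C` and
success probability `p₀`: for every real matrix `A` (`n × d`), every `1 ≤ r ≤ d` and every random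
`d × k` matrix `S` that is an oblivious subspace injection with dimension `r`, injectivity `1 - ε`
and failure probability `δ`, the bound `‖A - Ã‖_F ≤ (1 + C ε) ‖A - A_r‖_F` holds with probability
at least `p₀`. -/
def ConstBound (δ ε C p₀ : ℝ) : Prop :=
  ∀ (n d k r : ℕ), 1 ≤ r → r ≤ d → ∀ (A : Matrix (Fin n) (Fin d) ℝ)
    (W : Type) (_ : MeasurableSpace W) (P : Measure W) (_ : IsProbabilityMeasure P)
    (S : W → Matrix (Fin d) (Fin k) ℝ), IsOSI P S r (1 - ε) δ →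
      p₀ ≤ P.real {w | frob (A - rsvd A (S w)) ≤ (1 + C * ε) * bestErr A r}

lemma bestErr_nonneg {n d : ℕ} (A : Matrix (Fin n) (Fin d) ℝ) (r : ℕ) : 0 ≤ bestErr A r := by
  unfold bestErr
  apply Real.sInf_nonneg
  rintro e ⟨B, _, rfl⟩
  exact Real.sqrt_nonneg _

/-- the example matrix is not of rank at most one -/
lemma bestErr_pos (N : ℕ) (hN : 0 < N) : 0 < bestErr (diagonal (avec N)) 1 := by
  by_contra hcon
  have h0 : bestErr (diagonal (avec N)) 1 = 0 :=
    le_antisymm (not_lt.1 hcon) (bestErr_nonneg _ _)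
  obtain ⟨U, hU, hres⟩ := exists_minimizer (diagonal (avec N)) (r := 1) (by omega)
  rw [h0] at hres
  have hres0 : ∀ i, sqn (resid U ((diagonal (avec N) : Matrix (Fin (N+1)) (Fin (N+1)) ℝ) i)) = 0 := by
    have hnn : ∀ i, 0 ≤ sqn (resid U ((diagonal (avec N) : Matrix (Fin (N+1)) (Fin (N+1)) ℝ) i)) :=
      fun i => sum_nonneg fun _ _ => sq_nonneg _
    have hle : ∑ i, sqn (resid U ((diagonal (avec N) : Matrix (Fin (N+1)) (Fin (N+1)) ℝ) i)) = 0 :=
      le_antisymm (by simpa using hres) (sum_nonneg fun i _ => hnn i)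
    intro i
    exact (sum_eq_zero_iff_of_nonneg fun i _ => hnn i).1 hle i (mem_univ i)
  have hrow : ∀ i j, (diagonal (avec N) : Matrix (Fin (N+1)) (Fin (N+1)) ℝ) i j =
      U j 0 * (Uᵀ *ᵥ ((diagonal (avec N) : Matrix (Fin (N+1)) (Fin (N+1)) ℝ) i)) 0 := by
    intro i j
    have h1 := hres0 i
    unfold sqn at h1
    have h2 := (sum_eq_zero_iff_of_nonneg fun j _ => sq_nonneg _).1 h1 j (mem_univ j)
    have h3 : resid U ((diagonal (avec N) : Matrix (Fin (N+1)) (Fin (N+1)) ℝ) i) j = 0 := by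
      exact pow_eq_zero_iff (two_ne_zero) |>.1 h2
    unfold resid at h3
    rw [Pi.sub_apply, sub_eq_zero] at h3
    rw [h3, Matrix.mulVec, dotProduct]
    simp
  have hN0 : Real.sqrt N ≠ 0 := by
    have : (0 : ℝ) < N := by exact_mod_cast hN
    positivity
  have e00 := hrow 0 0
  rw [Matrix.diagonal_apply_eq] at e00
  obtain ⟨M, rfl⟩ : ∃ M, N = M + 1 := ⟨N - 1, by omega⟩
  have e10 := hrow 1 0
  have e11 := hrow 1 1
  rw [Matrix.diagonal_apply_ne _ (by simp)] at e10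
  rw [Matrix.diagonal_apply_eq] at e11
  have ha0 : avec (M + 1) 0 = Real.sqrt ((M + 1 : ℕ) : ℝ) := by simp [avec]
  have ha1 : avec (M + 1) 1 = 1 := by
    have : (1 : Fin (M + 1 + 1)) = Fin.succ 0 := by simp
    rw [this]; simp [avec]
  rw [ha0] at e00
  rw [ha1] at e11
  rcases mul_eq_zero.1 e10.symm with h | h
  · rw [h, zero_mul] at e00
    exact hN0 e00
  · rw [h, mul_zero] at e11
    exact one_ne_zero e11

set_option maxHeartbeats 4000000 in
/-- The counterexample. -/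
theorem example_all (δ : ℝ) (hδ : 0 < δ) (hδ1 : δ ≤ 1) :
    ∃ (n k : ℕ) (A : Matrix (Fin n) (Fin n) ℝ) (W : Type) (_ : MeasurableSpace W)
      (P : Measure W) (_ : IsProbabilityMeasure P) (S : W → Matrix (Fin n) (Fin k) ℝ),
      1 ≤ n ∧ (∀ ε : ℝ, 0 ≤ ε → IsOSI P S 1 (1 - ε) δ) ∧ 0 < bestErr A 1 ∧
      ∀ w, (1 + δ ^ 3 / 648) * bestErr A 1 < frob (A - rsvd A (S w)) := by
  set K : ℕ := ⌈2 / δ⌉₊ with hKdef
  have hK2δ : 2 / δ ≤ K := Nat.le_ceil _
  have hKlt : (K : ℝ) < 2 / δ + 1 := Nat.ceil_lt_add_one (by positivity)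
  have h2 : (2 : ℝ) ≤ 2 / δ := by
    rw [le_div_iff₀ hδ]; linarith
  have hKr : (2 : ℝ) ≤ K := h2.trans hK2δ
  have hK : 2 ≤ K := by exact_mod_cast hKr
  haveI : NeZero K := ⟨by omega⟩
  have hK3 : (K : ℝ) ≤ 3 / δ := by
    have : 1 ≤ 1 / δ := by rw [le_div_iff₀ hδ]; linarith
    have h3 : 3 / δ = 2 / δ + 1 / δ := by ring
    linarith
  have hδK : 2 ≤ δ * K := by
    rw [div_le_iff₀ hδ] at hK2δ
    linarith
  have hK0 : (0 : ℝ) < K := by linarith
  set s : ℝ := Real.sqrt (1 / (2 * (K : ℝ) ^ 3)) with hs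
  have hs2 : s ^ 2 = 1 / (2 * (K : ℝ) ^ 3) := Real.sq_sqrt (by positivity)
  have hs0 : 0 < s := Real.sqrt_pos.2 (by positivity)
  have hK8 : (8 : ℝ) ≤ (K : ℝ) ^ 3 := by
    calc (8 : ℝ) = 2 ^ 3 := by norm_num
      _ ≤ (K : ℝ) ^ 3 := pow_le_pow_left₀ (by norm_num) hKr 3
  have hs16 : s ^ 2 ≤ 1 / 16 := by
    rw [hs2]
    apply one_div_le_one_div_of_le (by norm_num)
    linarith
  have hs4 : s ≤ 1 / 4 := by
    have : s ^ 2 ≤ (1 / 4) ^ 2 := by norm_num; linarith
    exact le_of_sq_le_sq this (by norm_num)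
  have hsδ : δ ^ 3 / 54 ≤ s ^ 2 := by
    rw [hs2]
    have h3 : (K : ℝ) ^ 3 ≤ (3 / δ) ^ 3 := pow_le_pow_left₀ hK0.le hK3 3
    have h4 : (3 / δ) ^ 3 = 27 / δ ^ 3 := by rw [div_pow]; norm_num
    rw [h4] at h3
    have hδ3 : 0 < δ ^ 3 := by positivity
    rw [le_div_iff₀ (by positivity)]
    calc δ ^ 3 / 54 * (2 * (K : ℝ) ^ 3) ≤ δ ^ 3 / 54 * (2 * (27 / δ ^ 3)) := by gcongr
      _ = 1 := by field_simp; norm_num
  -- choose a large prime
  obtain ⟨p, hpge, hpp⟩ := Nat.exists_infinite_primes (⌈8 / s ^ 2⌉₊)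
  haveI : Fact p.Prime := ⟨hpp⟩
  have hp8 : 8 / s ^ 2 ≤ p := (Nat.le_ceil _).trans (by exact_mod_cast hpge)
  have hs2pos : 0 < s ^ 2 := by positivity
  have hp8' : 8 ≤ p * s ^ 2 := by
    rw [div_le_iff₀ hs2pos] at hp8
    exact hp8
  have hp0 : (0 : ℝ) < p := by exact_mod_cast hpp.pos
  have hp128 : (128 : ℝ) ≤ p := by nlinarith
  have hlc := exists_lowcoh (p := p)
  obtain ⟨N, hN⟩ : ∃ N, N = p ^ 3 := ⟨_, rfl⟩
  rw [← hN] at hlc
  obtain ⟨w, hw1, hw2, hw3⟩ := hlc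
  have hNpos : 0 < N := by rw [hN]; exact pow_pos hpp.pos 3
  have hNr : ((N : ℕ) : ℝ) = (p : ℝ) ^ 3 := by rw [hN]; push_cast; ring
  have hkN : (((p ^ 2 : ℕ) : ℝ) + 1) ≤ N * s ^ 2 / 4 := by
    rw [hNr]
    push_cast
    nlinarith [mul_le_mul_of_nonneg_left hp8' (sq_nonneg (p : ℝ))]
  have hsle1 : s ^ 2 ≤ 1 := by linarith
  set b := brow s w with hbdef
  have hb : ∀ j, gram b j j = 1 := by
    intro j
    refine Fin.cases (gram_brow_zero s w) (fun l => ?_) j
    rw [gram_brow_succ s hsle1 w l l, hw1]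
    ring
  have hsp : s ^ 2 + 1 / ((p : ℝ) - 1) ≤ s := by
    have hp1 : 0 < (p : ℝ) - 1 := by linarith
    have h5 : 1 / ((p : ℝ) - 1) ≤ s / 2 := by
      rw [div_le_div_iff₀ hp1 (by norm_num)]
      nlinarith
    nlinarith
  have hμ : ∀ j l, j ≠ l → |gram b j l| ≤ s := by
    intro j l
    refine Fin.cases ?_ (fun j' => ?_) j
    · refine Fin.cases ?_ (fun l' => ?_) l
      · intro h; exact absurd rfl h
      · intro _
        rw [gram_brow_zero_succ, abs_of_pos hs0]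
    · refine Fin.cases ?_ (fun l' => ?_) l
      · intro _
        rw [gram_symm, gram_brow_zero_succ, abs_of_pos hs0]
      · intro h
        have h' : j' ≠ l' := fun e => h (by rw [e])
        rw [gram_brow_succ s hsle1]
        have h6 := hw2 j' l' h'
        have h7 : 0 ≤ 1 - s ^ 2 := by linarith
        calc |s ^ 2 + (1 - s ^ 2) * ∑ i, w j' i * w l' i|
            ≤ |s ^ 2| + |(1 - s ^ 2) * ∑ i, w j' i * w l' i| := abs_add_le _ _
          _ = s ^ 2 + (1 - s ^ 2) * |∑ i, w j' i * w l' i| := by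
              rw [abs_of_pos hs2pos, abs_mul, abs_of_nonneg h7]
          _ ≤ s ^ 2 + 1 * (1 / ((p : ℝ) - 1)) := by
              gcongr
              linarith
          _ ≤ s := by rw [one_mul]; exact hsp
  have hμK : 2 * s ^ 2 * (K : ℝ) ^ 3 ≤ 1 := by
    rw [hs2]
    have : (K : ℝ) ^ 3 ≠ 0 := by positivity
    apply le_of_eq
    field_simp
  refine ⟨N + 1, p ^ 2 + 1, diagonal (avec N), Smp K (N + 1), inferInstance,
    unif (Smp K (N + 1)), inferInstance, Smat K b, by omega, ?_, bestErr_pos N hNpos, ?_⟩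
  · intro ε hε
    exact isOSI_Smat hK b hb s hμ hμK δ hδK ε hε
  · intro ω
    have hlow := err_lower hK s (by linarith) hs0 w hw3 hNpos hkN ω
    have hN0 : (0 : ℝ) < N := by exact_mod_cast hNpos
    set E := frob (diagonal (avec N) - rsvd (diagonal (avec N)) (Smat K b ω)) with hE
    have hE0 : 0 ≤ E := Real.sqrt_nonneg _
    have hbest := bestErr_le N
    have hsq : Real.sqrt N ^ 2 = N := Real.sq_sqrt hN0.le
    have hsqpos : 0 < Real.sqrt N := Real.sqrt_pos.2 hN0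
    set t := δ ^ 3 / 648 with ht
    have ht0 : 0 < t := by positivity
    have hts : 3 * t ≤ s ^ 2 / 4 := by
      rw [ht]; linarith
    have ht1 : t < 1 := by
      have : δ ^ 3 ≤ 1 := pow_le_one₀ hδ.le hδ1
      rw [ht]; linarith
    have h8 : ((1 + t) * Real.sqrt N) ^ 2 < E ^ 2 := by
      calc ((1 + t) * Real.sqrt N) ^ 2 = (1 + t) ^ 2 * N := by rw [mul_pow, hsq]
        _ < (1 + 3 * t) * N := by
            apply mul_lt_mul_of_pos_right _ hN0
            nlinarith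
        _ ≤ (1 + s ^ 2 / 4) * N := by
            apply mul_le_mul_of_nonneg_right _ hN0.le
            linarith
        _ = N * (1 + s ^ 2 / 4) := by ring
        _ ≤ E ^ 2 := hlow
    calc (1 + t) * bestErr (diagonal (avec N)) 1 ≤ (1 + t) * Real.sqrt N :=
          mul_le_mul_of_nonneg_left hbest (by linarith)
      _ < E := lt_of_pow_lt_pow_left₀ 2 hE0 h8

theorem result :
    (∀ δ : ℝ, 0 < δ → δ ≤ 1 →
      ∃ (n k : ℕ) (A : Matrix (Fin n) (Fin n) ℝ) (W : Type) (_ : MeasurableSpace W)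
        (P : Measure W) (_ : IsProbabilityMeasure P) (S : W → Matrix (Fin n) (Fin k) ℝ),
        1 ≤ n ∧ (∀ ε : ℝ, 0 ≤ ε → IsOSI P S 1 (1 - ε) δ) ∧ 0 < bestErr A 1 ∧
        ∀ w, (1 + δ ^ 3 / 648) * bestErr A 1 < frob (A - rsvd A (S w))) ∧
    (∀ C p₀ : ℝ, 0 < p₀ → ∃ ε₀ : ℝ, 0 < ε₀ ∧ ∀ ε : ℝ, 0 < ε → ε < ε₀ →
      ¬ ConstBound (1 / 100) ε C p₀) := by
  refine ⟨example_all, ?_⟩
  intro C p₀ hp₀
  have hc : (0 : ℝ) < (1 / 100 : ℝ) ^ 3 / 648 := by norm_num
  refine ⟨(1 / 100 : ℝ) ^ 3 / 648 / (|C| + 1), by positivity, ?_⟩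
  intro ε hε hε0 hbound
  obtain ⟨n, k, A, W, mW, P, hP, S, hn, hS, hpos, hw⟩ :=
    example_all (1 / 100) (by norm_num) (by norm_num)
  have h1 := hbound n n k 1 le_rfl hn A W mW P hP S (hS ε hε.le)
  have hempty : {w | frob (A - rsvd A (S w)) ≤ (1 + C * ε) * bestErr A 1} = ∅ := by
    ext w
    simp only [Set.mem_setOf_eq, Set.mem_empty_iff_false, iff_false, not_le]
    refine lt_of_le_of_lt ?_ (hw w)
    apply mul_le_mul_of_nonneg_right _ hpos.le
    have h2 : C * ε ≤ |C| * ε := mul_le_mul_of_nonneg_right (le_abs_self C) hε.le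
    have h3 : ε * (|C| + 1) < (1 / 100 : ℝ) ^ 3 / 648 := by
      rwa [lt_div_iff₀ (by positivity)] at hε0
    nlinarith [abs_nonneg C]
  rw [hempty] at h1
  simp at h1
  linarith

end Pool.Agent.Results.MP_082b65_an.ConstantFailure
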